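import Pool.Agent.helper60.MW.Spec

set_option autoImplicit false

namespace Pool.Agent.MW

theorem PYT (hAVR : AVR_stmt) (hRXS : RXS_stmt) : PYT_stmt := by
  intro D hD L r
  have h4 : (0 : ℝ) < 4 ^ (L + r) := by positivity
  have hv := hRXS (fun x y => ENNReal.ofReal
    ((D (L + r) x y - D L (x / 2 ^ r) (y / 2 ^ r)) ^ 2 / 4 ^ (L + r))) r
  have he := hRXS (fun x y => ENNReal.ofReal (D (L + r) x y ^ 2 / 4 ^ (L + r))) r
  change _ = en D (L + r)
  have h1 : va D L r = _ := hv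
  have h2 : en D (L + r) = _ := he
  rw [h1, h2]
  unfold en
  rw [← ENNReal.tsum_add]
  refine tsum_congr fun s => ?_
  have hq : ∀ (x : ℤ) (i : ℕ), i ∈ Finset.range (2 ^ r) → (2 ^ r * x + (i : ℤ)) / 2 ^ r = x := by
    intro x i hi
    have h2 : (0 : ℤ) < 2 ^ r := by positivity
    have hi' : (i : ℤ) < 2 ^ r := by
      have := Finset.mem_range.1 hi
      exact_mod_cast this
    rw [add_comm, Int.add_mul_ediv_left _ _ (ne_of_gt h2), Int.ediv_eq_zero_of_lt (by positivity) hi',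
      zero_add]
  -- the two double sums as `ofReal` of double sums
  have c1 : ∑ i ∈ Finset.range (2 ^ r), ∑ j ∈ Finset.range (2 ^ r),
      ENNReal.ofReal ((D (L + r) (2 ^ r * s.1 + i) (2 ^ r * s.2 + j) -
        D L ((2 ^ r * s.1 + i) / 2 ^ r) ((2 ^ r * s.2 + j) / 2 ^ r)) ^ 2 / 4 ^ (L + r)) =
      ENNReal.ofReal (∑ i ∈ Finset.range (2 ^ r), ∑ j ∈ Finset.range (2 ^ r),
        ((D (L + r) (2 ^ r * s.1 + i) (2 ^ r * s.2 + j) - D L s.1 s.2) ^ 2 / 4 ^ (L + r))) := by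
    rw [ENNReal.ofReal_sum_of_nonneg (fun i _ => Finset.sum_nonneg fun j _ => by positivity)]
    refine Finset.sum_congr rfl fun i hi => ?_
    rw [ENNReal.ofReal_sum_of_nonneg (fun j _ => by positivity)]
    refine Finset.sum_congr rfl fun j hj => ?_
    rw [hq s.1 i hi, hq s.2 j hj]
  have c2 : ∑ i ∈ Finset.range (2 ^ r), ∑ j ∈ Finset.range (2 ^ r),
      ENNReal.ofReal (D (L + r) (2 ^ r * s.1 + i) (2 ^ r * s.2 + j) ^ 2 / 4 ^ (L + r)) =
      ENNReal.ofReal (∑ i ∈ Finset.range (2 ^ r), ∑ j ∈ Finset.range (2 ^ r),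
        (D (L + r) (2 ^ r * s.1 + i) (2 ^ r * s.2 + j) ^ 2 / 4 ^ (L + r))) := by
    rw [ENNReal.ofReal_sum_of_nonneg (fun i _ => Finset.sum_nonneg fun j _ => by positivity)]
    refine Finset.sum_congr rfl fun i hi => ?_
    rw [ENNReal.ofReal_sum_of_nonneg (fun j _ => by positivity)]
  rw [c1, c2, ← ENNReal.ofReal_add
    (Finset.sum_nonneg fun i _ => Finset.sum_nonneg fun j _ => by positivity) (by positivity)]
  congr 1
  have ha := hAVR D hD L r s.1 s.2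
  set d : ℕ → ℕ → ℝ := fun i j => D (L + r) (2 ^ r * s.1 + i) (2 ^ r * s.2 + j) with hd
  set c : ℝ := D L s.1 s.2 with hc
  have ha' : ∑ i ∈ Finset.range (2 ^ r), ∑ j ∈ Finset.range (2 ^ r), d i j = 4 ^ r * c := ha
  have hp : (4 : ℝ) ^ (L + r) = 4 ^ L * 4 ^ r := pow_add 4 L r
  have e1 : ∑ i ∈ Finset.range (2 ^ r), ∑ j ∈ Finset.range (2 ^ r), ((d i j - c) ^ 2 / 4 ^ (L + r)) =
      ∑ i ∈ Finset.range (2 ^ r), ∑ j ∈ Finset.range (2 ^ r), (d i j ^ 2 / 4 ^ (L + r)) -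
      2 * c / 4 ^ (L + r) * ∑ i ∈ Finset.range (2 ^ r), ∑ j ∈ Finset.range (2 ^ r), d i j +
      ∑ i ∈ Finset.range (2 ^ r), ∑ j ∈ Finset.range (2 ^ r), c ^ 2 / 4 ^ (L + r) := by
    rw [Finset.mul_sum, ← Finset.sum_sub_distrib, ← Finset.sum_add_distrib]
    refine Finset.sum_congr rfl fun i _ => ?_
    rw [Finset.mul_sum, ← Finset.sum_sub_distrib, ← Finset.sum_add_distrib]
    refine Finset.sum_congr rfl fun j _ => ?_
    ring
  have e2 : ∑ i ∈ Finset.range (2 ^ r), ∑ j ∈ Finset.range (2 ^ r), c ^ 2 / (4 : ℝ) ^ (L + r) =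
      c ^ 2 / 4 ^ L := by
    rw [Finset.sum_const, Finset.sum_const, Finset.card_range, smul_smul, nsmul_eq_mul]
    have h22 : ((2 ^ r * 2 ^ r : ℕ) : ℝ) = 4 ^ r := by
      push_cast
      rw [← mul_pow]
      norm_num
    rw [h22, hp]
    field_simp
  change ∑ i ∈ Finset.range (2 ^ r), ∑ j ∈ Finset.range (2 ^ r), ((d i j - c) ^ 2 / 4 ^ (L + r)) +
    c ^ 2 / 4 ^ L = ∑ i ∈ Finset.range (2 ^ r), ∑ j ∈ Finset.range (2 ^ r), (d i j ^ 2 / 4 ^ (L + r))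
  rw [e1, ha', e2, hp]
  field_simp
  ring

end Pool.Agent.MW
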