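import Pool.Agent.helper60.MW.SpecB

set_option autoImplicit false

namespace Pool.Agent.MW

theorem TOT (hPYT : PYT_stmt) (hENM : ENM_stmt) : TOT_stmt := by
  intro ι D hD hM
  have hle : ∀ L, ∑' i, en (D i) L ≤ 1 := fun L =>
    (ENNReal.tsum_le_tsum fun i => hENM (D i) (hD i) L).trans hM
  have hfin : ∀ L, ∑' i, en (D i) L ≠ ⊤ := fun L => ne_top_of_le_ne_top ENNReal.one_ne_top (hle L)
  have hadd : ∀ L r, ∑' i, va (D i) L r + ∑' i, en (D i) L = ∑' i, en (D i) (L + r) := by
    intro L r
    rw [← ENNReal.tsum_add]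
    exact tsum_congr fun i => hPYT (D i) (hD i) L r
  refine ⟨fun L => (∑' i, en (D i) L).toReal, ?_, ?_, ?_⟩
  · refine monotone_nat_of_le_succ fun L => ?_
    refine ENNReal.toReal_mono (hfin (L + 1)) ?_
    rw [← hadd L 1]
    exact le_add_self
  · intro L
    refine ⟨ENNReal.toReal_nonneg, ?_⟩
    have h := ENNReal.toReal_mono ENNReal.one_ne_top (hle L)
    rwa [ENNReal.toReal_one] at h
  · intro L r
    have hva : ∑' i, va (D i) L r ≠ ⊤ := by
      refine ne_top_of_le_ne_top (hfin (L + r)) ?_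
      rw [← hadd L r]
      exact le_self_add
    have h : (∑' i, en (D i) (L + r)).toReal - (∑' i, en (D i) L).toReal =
        (∑' i, va (D i) L r).toReal := by
      rw [← hadd L r, ENNReal.toReal_add hva (hfin L)]
      ring
    change _ ≤ ENNReal.ofReal ((∑' i, en (D i) (L + r)).toReal - (∑' i, en (D i) L).toReal)
    rw [h, ENNReal.ofReal_toReal hva]

end Pool.Agent.MW
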