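import Pool.Agent.helper60.MW.SpecB

set_option autoImplicit false

namespace Pool.Agent.MW

open MeasureTheory Set Pool.Agent.helper17.Worm

theorem UTM (hUTO : UTO_stmt) (hWCX : WCX_stmt) : UTM_stmt := by
  intro ε h0 h1
  obtain ⟨δ, hδ, H⟩ := hUTO (ε / 2) (by linarith) (by linarith)
  refine ⟨δ, hδ, fun X hX hv => ?_⟩
  have hfin : volume X ≠ ⊤ := (hv.trans ENNReal.one_lt_top).ne
  have hε : ENNReal.ofReal (ε / 2) ≠ 0 := by
    intro h
    rw [ENNReal.ofReal_eq_zero] at h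
    linarith
  have hr : volume X < min 1 (volume X + ENNReal.ofReal (ε / 2)) :=
    lt_min hv (ENNReal.lt_add_right hfin hε)
  obtain ⟨U, hXU, hU, hUv⟩ := Set.exists_isOpen_lt_of_lt X _ hr
  obtain ⟨Y, hY, hYU, hf⟩ := H U hU (hWCX X U hX hXU) (hUv.le.trans (min_le_left _ _))
  refine ⟨Y, hY, ?_, ?_⟩
  · have hsub : Y \ X ⊆ (Y \ U) ∪ (U \ X) := by
      intro z hz
      by_cases hzU : z ∈ U
      · exact Or.inr ⟨hzU, hz.2⟩
      · exact Or.inl ⟨hz.1, hzU⟩
    have h2 : volume (U \ X) ≤ ENNReal.ofReal (ε / 2) := by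
      rw [measure_sdiff hXU hX.1 hfin]
      exact tsub_le_iff_left.2 (hUv.le.trans (min_le_right _ _))
    calc volume (Y \ X) ≤ volume ((Y \ U) ∪ (U \ X)) := measure_mono hsub
      _ ≤ volume (Y \ U) + volume (U \ X) := measure_union_le _ _
      _ ≤ ENNReal.ofReal (ε / 2) + ENNReal.ofReal (ε / 2) := add_le_add hYU h2
      _ = ENNReal.ofReal ε := by
        rw [← ENNReal.ofReal_add (by linarith) (by linarith), add_halves]
  · intro f hfl
    refine hf f fun x hx y hy => (hfl x hx y hy).trans ?_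
    exact mul_le_mul_of_nonneg_right (by linarith) (abs_nonneg _)

end Pool.Agent.MW
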