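import Pool.Agent.helper60.MW.Spec

set_option autoImplicit false

namespace Pool.Agent.MW

theorem AVR_two (n : ℕ) (f : ℕ → ℝ) :
    ∑ i ∈ Finset.range (2 * n), f i = ∑ i ∈ Finset.range n, (f (2 * i) + f (2 * i + 1)) := by
  induction n with
  | zero => simp
  | succ n ih =>
    rw [Nat.mul_succ, Finset.sum_range_succ, Finset.sum_range_succ, ih, Finset.sum_range_succ]
    ring

theorem AVR : AVR_stmt := by
  intro D hD L r
  induction r with
  | zero =>
    intro x y
    simp
  | succ r ih =>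
    intro x y
    have e : (2 : ℕ) ^ (r + 1) = 2 * 2 ^ r := pow_succ' 2 r
    have e4 : (4 : ℝ) ^ (r + 1) * D L x y = 4 * (4 ^ r * D L x y) := by
      rw [pow_succ]
      ring
    rw [e, AVR_two, e4, ← ih x y, Finset.mul_sum]
    refine Finset.sum_congr rfl fun i _ => ?_
    rw [AVR_two, AVR_two, ← Finset.sum_add_distrib, Finset.mul_sum]
    refine Finset.sum_congr rfl fun j _ => ?_
    have a := hD.avg (L + r) (2 ^ r * x + i) (2 ^ r * y + j)
    have e1 : (2 : ℤ) ^ (r + 1) * x + ((2 * i : ℕ) : ℤ) = 2 * (2 ^ r * x + i) := by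
      push_cast
      ring
    have e2 : (2 : ℤ) ^ (r + 1) * x + ((2 * i + 1 : ℕ) : ℤ) = 2 * (2 ^ r * x + i) + 1 := by
      push_cast
      ring
    have e3 : (2 : ℤ) ^ (r + 1) * y + ((2 * j : ℕ) : ℤ) = 2 * (2 ^ r * y + j) := by
      push_cast
      ring
    have e5 : (2 : ℤ) ^ (r + 1) * y + ((2 * j + 1 : ℕ) : ℤ) = 2 * (2 ^ r * y + j) + 1 := by
      push_cast
      ring
    rw [e1, e2, e3, e5, a]
    have e6 : L + (r + 1) = L + r + 1 := rfl
    rw [e6]
    ring

end Pool.Agent.MW
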